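import Pool.Agent.Helper66.HK.Stmts

/-! (CPL) conditional copy. -/

namespace Pool.Agent.Helper66.HK

open Finset Pool.Agent.Helper69.RK

noncomputable section

theorem cpl_congr (h2 : ST_E2) {Ω α γ : Type} [Fintype Ω] (μ : Ω → ℝ) (f f' : Ω → α)
    (g g' : Ω → γ) (hμ : ∀ ω, 0 ≤ μ ω) (hf : ∀ ω, μ ω ≠ 0 → f ω = f' ω)
    (hg : ∀ ω, μ ω ≠ 0 → g ω = g' ω) : CH μ f g = CH μ f' g' := by
  obtain ⟨e21, e22, -⟩ := h2
  have a1 : CH μ f g = CH μ f' g := by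
    apply le_antisymm
    · refine e21 Ω α α γ μ f f' g hμ ?_
      intro ω ω' h h' he
      have := (Prod.ext_iff.1 he).1
      rw [hf ω h, hf ω' h']
      exact this
    · refine e21 Ω α α γ μ f' f g hμ ?_
      intro ω ω' h h' he
      have := (Prod.ext_iff.1 he).1
      rw [← hf ω h, ← hf ω' h']
      exact this
  have a2 : CH μ f' g = CH μ f' g' := by
    apply le_antisymm
    · refine e22 Ω α γ γ μ f' g' g hμ ?_
      intro ω ω' h h' he
      rw [← hg ω h, ← hg ω' h']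
      exact he
    · refine e22 Ω α γ γ μ f' g g' hμ ?_
      intro ω ω' h h' he
      rw [hg ω h, hg ω' h']
      exact he
  rw [a1, a2]

theorem cpl_symm (h1 : ST_E1) (h2 : ST_E2) {Ω α β γ : Type} [Fintype Ω] (μ : Ω → ℝ) (f : Ω → α)
    (h : Ω → β) (g : Ω → γ) (hμ : ∀ ω, 0 ≤ μ ω) : MI μ f h g = MI μ h f g := by
  obtain ⟨e21, -, -⟩ := h2
  have a1 := (h1 Ω α β γ μ f h g hμ).2.1
  have a2 := (h1 Ω β α γ μ h f g hμ).2.1
  have a3 : CH μ (fun ω => (f ω, h ω)) g = CH μ (fun ω => (h ω, f ω)) g := by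
    apply le_antisymm
    · refine e21 Ω _ _ γ μ _ _ g hμ ?_
      intro ω ω' _ _ he
      simp only [Prod.mk.injEq] at he ⊢
      exact ⟨he.1.2, he.1.1⟩
    · refine e21 Ω _ _ γ μ _ _ g hμ ?_
      intro ω ω' _ _ he
      simp only [Prod.mk.injEq] at he ⊢
      exact ⟨he.1.2, he.1.1⟩
  unfold MI
  linarith

theorem st_CPL (h1 : ST_E1) (h2 : ST_E2) (h5 : ST_E5) (h7 : ST_E7) : ST_CPL := by
  intro Ω 𝔾 τ γ _ _ μ U V A T c hμ hV hTA
  have h2' := h2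
  obtain ⟨e21, e22, e23⟩ := h2
  obtain ⟨n1, n2, -, n4, n5, n6⟩ := h7 Ω (𝔾 × γ) μ (fun ω => (U ω, c ω)) hμ
  have hsU : ∀ w, cop2 μ (fun ω => (U ω, c ω)) w ≠ 0 → U w.1 = U w.2 := fun w hw =>
    (Prod.ext_iff.1 (n2 w hw).1).1
  have hsc : ∀ w, cop2 μ (fun ω => (U ω, c ω)) w ≠ 0 → c w.1 = c w.2 := fun w hw =>
    (Prod.ext_iff.1 (n2 w hw).1).2
  -- transfer to the first coordinate
  have key1 : ∀ (δ : Type) (F : Ω → δ), CH (cop2 μ (fun ω => (U ω, c ω))) (fun w => F w.1)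
      (fun w => c w.2) = CH μ F c := by
    intro δ F
    rw [cpl_congr h2' (cop2 μ (fun ω => (U ω, c ω))) (fun w => F w.1) (fun w => F w.1)
      (fun w => c w.2) (fun w => c w.1) n1 (fun _ _ => rfl) (fun w hw => (hsc w hw).symm)]
    have := (h5.1 Ω (Ω × Ω) δ γ (cop2 μ (fun ω => (U ω, c ω))) Prod.fst F c n1).2.2
    rw [n4] at this
    exact this.symm
  -- comparison of the informations
  have hMI : CH μ A c - CH μ A (fun ω => (U ω, c ω)) ≤ MI μ U T c := by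
    have a1 : MI μ A U c = MI μ U A c := cpl_symm h1 h2' μ A U c hμ
    have a2 : CH μ U (fun ω => (T ω, c ω)) ≤ CH μ U (fun ω => (A ω, c ω)) := by
      refine e22 Ω 𝔾 _ _ μ U _ _ hμ ?_
      intro ω ω' h h' he
      simp only [Prod.mk.injEq] at he ⊢
      exact ⟨hTA ω ω' h h' he.1, he.2⟩
    unfold MI at a1 ⊢
    linarith
  have key2 : ∀ (β : Type) (g : Ω → β), CH μ A (fun ω => (U ω, c ω)) ≤
      CH (cop2 μ (fun ω => (U ω, c ω))) (fun w => A w.1) (fun w => (g w.2, c w.2)) := by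
    intro β g
    rw [← n6 𝔾 β A g]
    refine e22 (Ω × Ω) 𝔾 _ _ _ _ _ _ n1 ?_
    intro w w' hw hw' he
    simp only [Prod.mk.injEq] at he ⊢
    refine ⟨he.1, ?_⟩
    rw [← hsc w hw, ← hsc w' hw']
    exact he.2.2
  refine ⟨Ω × Ω, inferInstance, cop2 μ (fun ω => (U ω, c ω)), Prod.snd, fun w => A w.1, n1, n5,
    fun w hw => (n2 w hw).2.2, ?_, ?_, ?_⟩
  · rw [← key1 𝔾 V]
    refine cpl_congr h2' _ _ _ _ _ n1 ?_ (fun _ _ => rfl)
    intro w hw
    rw [hV, hsU w hw]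
  · intro δ X
    rw [cpl_symm h1 h2' _ _ _ _ n1]
    unfold MI at hMI ⊢
    have b1 := (h1 (Ω × Ω) 𝔾 τ γ (cop2 μ (fun ω => (U ω, c ω))) (fun w => A w.1) (fun w => T w.2)
      (fun w => c w.2) n1).2.2
    rw [key1 𝔾 A] at b1
    have b2 := key2 (δ × τ) (fun ω => (X ω, T ω))
    have b3 : CH (cop2 μ (fun ω => (U ω, c ω))) (fun w => A w.1)
        (fun w => ((X w.2, T w.2), c w.2)) =
        CH (cop2 μ (fun ω => (U ω, c ω))) (fun w => A w.1)
        (fun w => (X w.2, (T w.2, c w.2))) := by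
      apply le_antisymm
      · refine e22 (Ω × Ω) 𝔾 _ _ _ _ _ _ n1 ?_
        intro w w' _ _ he
        simp only [Prod.mk.injEq] at he ⊢
        exact ⟨he.1.1, he.1.2, he.2⟩
      · refine e22 (Ω × Ω) 𝔾 _ _ _ _ _ _ n1 ?_
        intro w w' _ _ he
        simp only [Prod.mk.injEq] at he ⊢
        exact ⟨⟨he.1, he.2.1⟩, he.2.2⟩
    rw [b3] at b2
    linarith
  · have b2 := key2 τ T
    linarith

end

end Pool.Agent.Helper66.HK
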